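import Pool.Agent.AEC.StmtsC

/-!
# Squad AEC, row CN4: number of homomorphisms
-/

open FirstOrder FirstOrder.Language Cardinal Set

universe u

namespace Pool.Agent.AEC.H33

theorem cn4 : Cn4Stmt.{u} := by
  intro L κ K A P
  have h : Function.Injective (fun f : K.Hom A P => (fun x : A.α => f x)) :=
    DFunLike.coe_injective
  have h1 := Cardinal.mk_le_of_injective h
  rwa [← Cardinal.power_def] at h1

end Pool.Agent.AEC.H33
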