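import Pool.Agent.AEC.StmtsS

/-!
# Squad AEC, part S: row S_SWP (swapping two components)
-/

set_option autoImplicit false

open FirstOrder FirstOrder.Language Cardinal Set

universe u

namespace Pool.Agent.AEC.S.H33

section aux

variable {L : FirstOrder.Language.{u, u}} {M : Type u} [L.Structure M]

theorem adj_symm {x y : M} (h : adj L x y) : adj L y x := by
  obtain ⟨hne, n, R, v, hR, hi, hj⟩ := h
  exact ⟨hne.symm, n, R, v, hR, hj, hi⟩

theorem not_mem_of_con {B : Set M} {x y : M} (hx : x ∉ B) (h : con L B x y) : y ∉ B := by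
  induction h with
  | refl => exact hx
  | tail _ h _ => exact h.2

theorem con_symm {B : Set M} {x y : M} (hx : x ∉ B) (h : con L B x y) : con L B y x := by
  induction h with
  | refl => exact Relation.ReflTransGen.refl
  | tail h1 h2 ih =>
    exact Relation.ReflTransGen.head ⟨adj_symm h2.1, not_mem_of_con hx h1⟩ ih

theorem tup {B : Set M} {z : M} {n : ℕ} {R : L.Relations n} {v : Fin n → M}
    (hR : Structure.RelMap R v) {i : Fin n} (hi : v i ∈ cmp L B z) (j : Fin n) :
    v j ∈ B ∨ v j ∈ cmp L B z := by
  by_cases h : v j ∈ B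
  · exact Or.inl h
  · right
    by_cases he : v i = v j
    · rw [← he]; exact hi
    · exact Relation.ReflTransGen.tail hi ⟨⟨he, n, R, v, hR, ⟨i, rfl⟩, ⟨j, rfl⟩⟩, h⟩

theorem cmp_eq {B : Set M} {x y : M} (hx : x ∉ B) (h : y ∈ cmp L B x) :
    cmp L B y = cmp L B x := by
  ext z
  constructor
  · intro hz
    exact Relation.ReflTransGen.trans h hz
  · intro hz
    exact Relation.ReflTransGen.trans (con_symm hx h) hz

end aux

/-- **S_SWP** -/
theorem s_swp : SwpStmt.{u} := by
  intro L _ M _ B x x' g hx hx' hB hb hg hR
  classical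
  have hDB : ∀ y ∈ cmp L B x, y ∉ B := fun y hy => not_mem_of_con hx hy
  have hDB' : ∀ y ∈ cmp L B x', y ∉ B := fun y hy => not_mem_of_con hx' hy
  have hxD : x ∈ cmp L B x := Relation.ReflTransGen.refl
  by_cases hc : x' ∈ cmp L B x
  · -- one component
    rw [cmp_eq hx hc] at hb
    obtain ⟨D, hD⟩ : ∃ D : Set M, D = cmp L B x := ⟨_, rfl⟩
    obtain ⟨h, hh⟩ : ∃ h : M → M, h = fun y => if y ∈ cmp L B x then g y else y := ⟨_, rfl⟩
    have h1 : ∀ y ∈ cmp L B x, h y = g y := by
      intro y hy
      rw [hh]
      exact if_pos hy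
    have h2 : ∀ y, y ∉ cmp L B x → h y = y := by
      intro y hy
      rw [hh]
      exact if_neg hy
    have h3 : ∀ y, h y ∈ cmp L B x ↔ y ∈ cmp L B x := by
      intro y
      by_cases hy : y ∈ cmp L B x
      · rw [h1 y hy]
        exact ⟨fun _ => hy, fun _ => hb.mapsTo hy⟩
      · rw [h2 y hy]
    have hinj : Function.Injective h := by
      intro y z hyz
      by_cases hy : y ∈ cmp L B x
      · have hz : z ∈ cmp L B x := by
          rw [← h3 z, ← hyz, h3 y]
          exact hy
        rw [h1 y hy, h1 z hz] at hyz
        exact hb.injOn hy hz hyz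
      · have hz : z ∉ cmp L B x := by
          rw [← h3 z, ← hyz, h3 y]
          exact hy
        rw [h2 y hy, h2 z hz] at hyz
        exact hyz
    have hsur : Function.Surjective h := by
      intro y
      by_cases hy : y ∈ cmp L B x
      · obtain ⟨z, hz, hzy⟩ := hb.surjOn hy
        exact ⟨z, by rw [h1 z hz, hzy]⟩
      · exact ⟨y, h2 y hy⟩
    have hgB : ∀ y, (y ∈ B ∨ y ∈ cmp L B x) → h y = g y := by
      rintro y (hy | hy)
      · rw [hB y hy, h2 y (fun h => hDB y h hy)]
      · exact h1 y hy
    have hrel : ∀ {n : ℕ} (R : L.Relations n) (v : Fin n → M),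
        Structure.RelMap R (h ∘ v) ↔ Structure.RelMap R v := by
      intro n R v
      by_cases hi : ∃ i, v i ∈ cmp L B x
      · obtain ⟨i, hi⟩ := hi
        constructor
        · intro hv
          have ha : ∀ j, v j ∈ B ∨ v j ∈ cmp L B x := by
            intro j
            have hij : (h ∘ v) i ∈ cmp L B x := (h3 (v i)).2 hi
            rcases tup hv hij j with hj | hj
            · left
              by_cases hvj : v j ∈ cmp L B x
              · exact absurd hj (hDB _ ((h3 (v j)).2 hvj))
              · have := h2 (v j) hvj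
                rw [← this]
                exact hj
            · right
              exact (h3 (v j)).1 hj
          have he : h ∘ v = fun j => g (v j) := funext fun j => hgB (v j) (ha j)
          rw [he] at hv
          exact (hR n R v ha).2 hv
        · intro hv
          have ha : ∀ j, v j ∈ B ∨ v j ∈ cmp L B x := fun j => tup hv hi j
          have he : h ∘ v = fun j => g (v j) := funext fun j => hgB (v j) (ha j)
          rw [he]
          exact (hR n R v ha).1 hv
      · have he : h ∘ v = v := funext fun j => h2 (v j) fun hj => hi ⟨j, hj⟩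
        rw [he]
    refine ⟨{ toEquiv := Equiv.ofBijective h ⟨hinj, hsur⟩
              map_fun' := fun f _ => isEmptyElim f
              map_rel' := fun R v => hrel R v }, ?_, ?_⟩
    · intro y hy
      exact h2 y (fun h => hDB y h hy)
    · change h x = x'
      rw [h1 x hxD, hg]
  · -- two components
    have hdis : ∀ y, y ∈ cmp L B x → y ∈ cmp L B x' → False := by
      intro y hy hy'
      apply hc
      rw [← cmp_eq hx hy, cmp_eq hx' hy']
      exact Relation.ReflTransGen.refl
    obtain ⟨k, hk⟩ : ∃ k : M → M, ∀ y ∈ cmp L B x', k y ∈ cmp L B x ∧ g (k y) = y := by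
      refine ⟨fun y => if hy : y ∈ cmp L B x' then (hb.surjOn hy).choose else y, ?_⟩
      intro y hy
      have := (hb.surjOn hy).choose_spec
      simp only [dif_pos hy]
      exact this
    have hkg : ∀ y ∈ cmp L B x, k (g y) = y := by
      intro y hy
      have h1 := hk (g y) (hb.mapsTo hy)
      exact hb.injOn h1.1 hy h1.2
    obtain ⟨h, hh⟩ : ∃ h : M → M, h = fun y => if y ∈ cmp L B x then g y else
        if y ∈ cmp L B x' then k y else y := ⟨_, rfl⟩
    have h1 : ∀ y ∈ cmp L B x, h y = g y := by
      intro y hy
      rw [hh]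
      exact if_pos hy
    have h2 : ∀ y ∈ cmp L B x', h y = k y := by
      intro y hy
      rw [hh]
      simp only
      rw [if_neg (fun h => hdis y h hy), if_pos hy]
    have h3 : ∀ y, y ∉ cmp L B x → y ∉ cmp L B x' → h y = y := by
      intro y hy hy'
      rw [hh]
      simp only
      rw [if_neg hy, if_neg hy']
    have hinv : Function.Involutive h := by
      intro y
      by_cases hy : y ∈ cmp L B x
      · rw [h1 y hy, h2 _ (hb.mapsTo hy), hkg y hy]
      · by_cases hy' : y ∈ cmp L B x'
        · rw [h2 y hy', h1 _ (hk y hy').1, (hk y hy').2]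
        · rw [h3 y hy hy', h3 y hy hy']
    have hgB : ∀ y, (y ∈ B ∨ y ∈ cmp L B x) → h y = g y := by
      rintro y (hy | hy)
      · rw [hB y hy, h3 y (fun h => hDB y h hy) (fun h => hDB' y h hy)]
      · exact h1 y hy
    have hfw : ∀ {n : ℕ} (R : L.Relations n) (v : Fin n → M),
        Structure.RelMap R v → Structure.RelMap R (h ∘ v) := by
      intro n R v hv
      by_cases hi : ∃ i, v i ∈ cmp L B x
      · obtain ⟨i, hi⟩ := hi
        have ha : ∀ j, v j ∈ B ∨ v j ∈ cmp L B x := fun j => tup hv hi j
        have he : h ∘ v = fun j => g (v j) := funext fun j => hgB (v j) (ha j)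
        rw [he]
        exact (hR n R v ha).1 hv
      · by_cases hi' : ∃ i, v i ∈ cmp L B x'
        · obtain ⟨i, hi'⟩ := hi'
          have ha : ∀ j, v j ∈ B ∨ v j ∈ cmp L B x' := fun j => tup hv hi' j
          have hw : ∀ j, h (v j) ∈ B ∨ h (v j) ∈ cmp L B x := by
            intro j
            rcases ha j with hj | hj
            · left
              rw [h3 _ (fun h => hDB _ h hj) (fun h => hDB' _ h hj)]
              exact hj
            · right
              rw [h2 _ hj]
              exact (hk _ hj).1
          have he : (fun j => g (h (v j))) = v := by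
            funext j
            rw [← hgB (h (v j)) (hw j), hinv (v j)]
          have h4 := hR n R (fun j => h (v j)) hw
          rw [he] at h4
          exact h4.2 hv
        · have he : h ∘ v = v := funext fun j =>
            h3 (v j) (fun hj => hi ⟨j, hj⟩) (fun hj => hi' ⟨j, hj⟩)
          rw [he]
          exact hv
    have hrel : ∀ {n : ℕ} (R : L.Relations n) (v : Fin n → M),
        Structure.RelMap R (h ∘ v) ↔ Structure.RelMap R v := by
      intro n R v
      refine ⟨fun hv => ?_, hfw R v⟩
      have h5 := hfw R _ hv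
      have he : h ∘ (h ∘ v) = v := funext fun j => hinv (v j)
      rw [he] at h5
      exact h5
    refine ⟨{ toEquiv := hinv.toPerm
              map_fun' := fun f _ => isEmptyElim f
              map_rel' := fun R v => hrel R v }, ?_, ?_⟩
    · intro y hy
      exact h3 y (fun h => hDB y h hy) (fun h => hDB' y h hy)
    · change h x = x'
      rw [h1 x hxD, hg]

end Pool.Agent.AEC.S.H33
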